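import Mathlib

namespace Pool.Agent.H.MP_1da119_pr

open MeasureTheory ProbabilityTheory Filter Topology unitInterval ENNReal

abbrev U := I × I

noncomputable abbrev nu : Measure U := (volume : Measure I).prod volume

noncomputable abbrev P : Measure (ℕ → U) := Measure.infinitePi fun _ => nu

def Y (sg : ℕ → ℕ → U → ℕ) (ω : ℕ → U) : ℕ → ℕ
  | 0 => 0
  | t + 1 => sg (t + 1) (Y sg ω t) (ω t)

lemma Y_congr (sg : ℕ → ℕ → U → ℕ) (ω ω' : ℕ → U) (t : ℕ) (h : ∀ i < t, ω i = ω' i) :
    Y sg ω t = Y sg ω' t := by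
  induction t with
  | zero => rfl
  | succ t ih => simp only [Y]; rw [ih fun i hi => h i (by omega), h t (by omega)]

lemma meas_unc (s : ℕ → U → ℕ) (h : ∀ p, Measurable (s p)) :
    Measurable fun z : ℕ × U => s z.1 z.2 :=
  measurable_from_prod_countable_right h

lemma Y_meas (sg : ℕ → ℕ → U → ℕ) (h : ∀ t p, Measurable (sg t p)) (t : ℕ) :
    Measurable fun ω => Y sg ω t := by
  induction t with
  | zero => exact measurable_const
  | succ t ih => exact (meas_unc _ (h (t + 1))).comp (ih.prodMk (measurable_pi_apply t))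

noncomputable def K (s : ℕ → U → ℕ) (g : ℕ → ℝ≥0∞) (p : ℕ) : ℝ≥0∞ := ∫⁻ u, g (s p u) ∂nu

lemma markov (sg : ℕ → ℕ → U → ℕ) (h : ∀ t p, Measurable (sg t p)) (t : ℕ) (g : ℕ → ℝ≥0∞) :
    ∫⁻ ω, g (Y sg ω (t + 1)) ∂P = ∫⁻ ω, K (sg (t + 1)) g (Y sg ω t) ∂P := by
  classical
  have hi : iIndepFun (fun i (ω : ℕ → U) => ω i) P :=
    iIndepFun_infinitePi (X := fun _ u => u) (fun _ => measurable_id)
  have h1 := hi.indepFun_finset (Finset.range t) {t} (by simp) (fun i => measurable_pi_apply i)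
  let F : (Finset.range t → U) → ℕ :=
    fun z => Y sg (fun i => if hi : i ∈ Finset.range t then z ⟨i, hi⟩ else (0, 0)) t
  have hF : Measurable F := by
    refine (Y_meas sg h t).comp (measurable_pi_lambda _ fun i => ?_)
    split_ifs
    · exact measurable_pi_apply _
    · exact measurable_const
  have h2 := h1.comp hF (measurable_pi_apply (⟨t, by simp⟩ : ({t} : Finset ℕ)))
  have e : (F ∘ fun (ω : ℕ → U) (i : Finset.range t) => ω i) = fun ω => Y sg ω t := by
    funext ω
    exact Y_congr sg _ _ t fun i hi => by simp [hi]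
  rw [e] at h2
  have h3 : IndepFun (fun ω => Y sg ω t) (fun ω : ℕ → U => ω t) P := h2
  have h4 := h3.map_prod_eq_prod_map_map (Y_meas sg h t).aemeasurable
    (measurable_pi_apply t).aemeasurable
  have h5 : P.map (fun ω : ℕ → U => ω t) = nu := Measure.infinitePi_map_eval _ t
  rw [h5] at h4
  have hg : Measurable fun z : ℕ × U => g (sg (t + 1) z.1 z.2) :=
    Measurable.of_discrete.comp (meas_unc _ (h (t + 1)))
  calc _ = ∫⁻ z, g (sg (t + 1) z.1 z.2) ∂(P.map fun ω => (Y sg ω t, ω t)) := by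
        rw [lintegral_map hg ((Y_meas sg h t).prodMk (measurable_pi_apply t))]; rfl
    _ = _ := by
        rw [h4, lintegral_prod _ hg.aemeasurable,
          lintegral_map Measurable.of_discrete (Y_meas sg h t)]
        rfl

lemma one_if (p : ℝ) (h0 : 0 ≤ p) (h1 : p ≤ 1) (c d : ℝ≥0∞) :
    ∫⁻ v : I, (if (v : ℝ) < p then c else d) = .ofReal p * c + .ofReal (1 - p) * d := by
  have : (fun v : I => if (v : ℝ) < p then c else d) =
      fun v => (Set.Iio (⟨p, h0, h1⟩ : I)).indicator (fun _ => c) v +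
        (Set.Ici (⟨p, h0, h1⟩ : I)).indicator (fun _ => d) v := by
    funext v
    by_cases h : (v : ℝ) < p
    · have h' : v < ⟨p, h0, h1⟩ := h
      simp [h, h', Set.indicator, not_le.mpr h']
    · have h' : ¬ v < ⟨p, h0, h1⟩ := h
      simp [h, h', Set.indicator, not_lt.mp h']
  rw [this, lintegral_add_left (measurable_const.indicator measurableSet_Iio),
    lintegral_indicator_const measurableSet_Iio, lintegral_indicator_const measurableSet_Ici,
    unitInterval.volume_Iio, unitInterval.volume_Ici, mul_comm c, mul_comm d]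

noncomputable def two (a A B : ℝ) (x y z : ℕ) (u : U) : ℕ :=
  if (u.1 : ℝ) < a then (if (u.2 : ℝ) < A then y else x) else (if (u.2 : ℝ) < B then z else x)

lemma two_meas (a A B : ℝ) (x y z : ℕ) : Measurable (two a A B x y z) := by
  unfold two
  refine Measurable.ite ?_ (Measurable.ite ?_ measurable_const measurable_const)
    (Measurable.ite ?_ measurable_const measurable_const) <;>
  exact measurableSet_lt (by fun_prop) measurable_const

lemma two_int (a A B : ℝ) (ha : 0 ≤ a ∧ a ≤ 1) (hA : 0 ≤ A ∧ A ≤ 1) (hB : 0 ≤ B ∧ B ≤ 1)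
    (x y z : ℕ) (h : ℕ → ℝ) (hh : ∀ p, 0 ≤ h p) :
    ∫⁻ u, .ofReal (h (two a A B x y z u)) ∂nu =
      .ofReal (a * (A * h y + (1 - A) * h x) + (1 - a) * (B * h z + (1 - B) * h x)) := by
  have hm : Measurable fun u => ENNReal.ofReal (h (two a A B x y z u)) :=
    (Measurable.of_discrete (f := fun p => ENNReal.ofReal (h p))).comp (two_meas a A B x y z)
  rw [lintegral_prod _ hm.aemeasurable]
  have : ∀ v : I, ∫⁻ w : I, ENNReal.ofReal (h (two a A B x y z (v, w))) =
      if (v : ℝ) < a then .ofReal (A * h y + (1 - A) * h x)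
      else .ofReal (B * h z + (1 - B) * h x) := by
    intro v
    have h1 := hh x
    have h2 := hh y
    have h3 := hh z
    have a1 := sub_nonneg.mpr hA.2
    have b1 := sub_nonneg.mpr hB.2
    have a0 := hA.1
    have b0 := hB.1
    split_ifs with hv
    · simp only [two, hv, if_true, apply_ite h, apply_ite ENNReal.ofReal]
      rw [one_if A hA.1 hA.2, ofReal_add (by positivity) (by positivity), ofReal_mul a0,
        ofReal_mul a1]
    · simp only [two, hv, if_false, apply_ite h, apply_ite ENNReal.ofReal]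
      rw [one_if B hB.1 hB.2, ofReal_add (by positivity) (by positivity), ofReal_mul b0,
        ofReal_mul b1]
  simp only [this]
  have h1 := hh x
  have h2 := hh y
  have h3 := hh z
  have a1 := sub_nonneg.mpr hA.2
  have b1 := sub_nonneg.mpr hB.2
  have c1 := sub_nonneg.mpr ha.2
  have a0 := hA.1
  have b0 := hB.1
  have c0 := ha.1
  rw [one_if a ha.1 ha.2, ofReal_add (p := a * _) (by positivity) (by positivity), ofReal_mul c0,
    ofReal_mul c1]

lemma lyap (f b : ℕ → ℝ) (hf : ∀ p, 0 < f p) (hb : ∀ p, 0 ≤ b p) (r : ℝ) (hr : r < 1)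
    (hlim : Tendsto (fun p => b p / f p) atTop (𝓝 r)) (L : ℕ) :
    ∃ h : ℕ → ℝ, (∀ p, 0 ≤ h p) ∧ (∀ p, h p ≤ h 0) ∧ Tendsto h atTop (𝓝 0) ∧
      ∀ p, f p * (h (p + 1) - h p) + b p * (h (p - 1) - h p) + (if p ≤ L then 1 else 0) ≤ 0 := by
  set δ := (1 - r) / 2 with hδ
  have hδ0 : 0 < δ := by rw [hδ]; linarith
  let D : ℕ → ℝ := fun p => ∏ q ∈ Finset.range p, (b (q + 1) / f (q + 1) + δ)
  have hq : ∀ q, 0 < b q / f q + δ := fun q =>
    add_pos_of_nonneg_of_pos (div_nonneg (hb q) (hf q).le) hδ0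
  have hD : ∀ p, 0 < D p := fun p => Finset.prod_pos fun q _ => hq _
  have hS : ∀ p, D (p + 1) = D p * (b (p + 1) / f (p + 1) + δ) := fun p =>
    Finset.prod_range_succ _ _
  have hsum : Summable D := by
    refine summable_of_ratio_test_tendsto_lt_one (l := r + δ) (by rw [hδ]; linarith)
      (Eventually.of_forall fun p => (hD p).ne') ?_
    have := ((tendsto_add_atTop_iff_nat 1).mpr hlim).add_const δ
    refine this.congr fun p => ?_
    rw [Real.norm_of_nonneg (hD _).le, Real.norm_of_nonneg (hD _).le, hS,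
      mul_div_cancel_left₀ _ (hD p).ne']
  let H : ℕ → ℝ := fun p => ∑' q, D (q + p)
  have hH : ∀ p, H p = D p + H (p + 1) := by
    intro p
    have := ((summable_nat_add_iff p).mpr hsum).tsum_eq_zero_add
    simp only [H]
    rw [this, zero_add]
    congr 2
    funext q
    congr 1
    omega
  have hH0 : ∀ p, 0 ≤ H p := fun p => tsum_nonneg fun q => (hD _).le
  let d : ℕ → ℝ := fun p => -(f p * (H (p + 1) - H p) + b p * (H (p - 1) - H p))
  have hd : ∀ p, 0 < d p := by
    intro p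
    simp only [d]
    rcases p with _ | p
    · have := mul_pos (hf 0) (hD 0)
      have e1 : H (0 + 1) - H 0 = -D 0 := by rw [hH 0]; ring
      rw [e1, Nat.zero_sub, sub_self]
      linarith
    · have e1 : H (p + 1 + 1) - H (p + 1) = -D (p + 1) := by rw [hH (p + 1)]; ring
      have e2 : H (p + 1 - 1) - H (p + 1) = D p := by
        rw [Nat.add_sub_cancel, hH p]; ring
      rw [e1, e2, hS]
      have := mul_pos (mul_pos (hf (p + 1)) (hD p)) hδ0
      have e3 : f (p + 1) * (b (p + 1) / f (p + 1)) = b (p + 1) :=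
        mul_div_cancel₀ _ (hf _).ne'
      have : f (p + 1) * -(D p * (b (p + 1) / f (p + 1) + δ)) =
          -(D p * (f (p + 1) * (b (p + 1) / f (p + 1)))) - f (p + 1) * D p * δ := by ring
      rw [this, e3]
      linarith
  let c : ℝ := ∑ q ∈ Finset.range (L + 1), (d q)⁻¹
  have hc0 : 0 ≤ c := Finset.sum_nonneg fun q _ => (inv_pos.mpr (hd q)).le
  refine ⟨fun p => c * H p, fun p => mul_nonneg hc0 (hH0 p), fun p => ?_, ?_, fun p => ?_⟩
  · refine mul_le_mul_of_nonneg_left ?_ hc0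
    refine antitone_nat_of_succ_le (f := H) (fun q => ?_) (Nat.zero_le p)
    rw [hH q]
    linarith [hD q]
  · simpa using (_root_.tendsto_sum_nat_add D).const_mul c
  · have e : f p * (c * H (p + 1) - c * H p) + b p * (c * H (p - 1) - c * H p) = -(c * d p) := by
      simp only [d]; ring
    rw [e]
    split_ifs with hp
    · have : (d p)⁻¹ ≤ c := Finset.single_le_sum (f := fun q => (d q)⁻¹)
        (fun q _ => (inv_pos.mpr (hd q)).le) (Finset.mem_range.mpr (by omega))
      have h2 := mul_le_mul_of_nonneg_right this (hd p).le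
      rw [inv_mul_cancel₀ (hd p).ne'] at h2
      linarith
    · have := mul_nonneg hc0 (hd p).le
      linarith

noncomputable def up (A B : ℕ → ℝ) (k : ℕ) (p : ℕ) : U → ℕ :=
  two (1 / 2 + 4 / (8 + k)) (A p) (B p) p (p + 1) (p - 1)

lemma lyapK (A B : ℕ → ℝ) (hA : ∀ p, 0 < A p ∧ A p ≤ 1) (hB : ∀ p, 0 ≤ B p ∧ B p ≤ 1)
    (hlim : Tendsto (fun p => B p / A p) atTop (𝓝 1)) (k L : ℕ) :
    ∃ h : ℕ → ℝ≥0∞, (∀ p, h p ≤ h 0) ∧ h 0 ≠ ∞ ∧ Tendsto h atTop (𝓝 0) ∧
      ∀ p, K (up A B k) h p + (if p ≤ L then 1 else 0) ≤ h p := by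
  set a : ℝ := 1 / 2 + 4 / (8 + k) with ha
  have hk : (0 : ℝ) ≤ k := Nat.cast_nonneg k
  have a1 : 1 / 2 < a := by rw [ha]; have : (0 : ℝ) < 4 / (8 + k) := by positivity
                            linarith
  have a2 : a ≤ 1 := by
    rw [ha]
    have : (4 : ℝ) / (8 + k) ≤ 1 / 2 := by rw [div_le_iff₀ (by positivity)]; linarith
    linarith
  obtain ⟨h, h0, h1, h2, h3⟩ := lyap (fun p => a * A p) (fun p => (1 - a) * B p)
    (fun p => mul_pos (by linarith) (hA p).1) (fun p => mul_nonneg (by linarith) (hB p).1)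
    ((1 - a) / a) (by rw [div_lt_one (by linarith)]; linarith) (by
      have := hlim.const_mul ((1 - a) / a)
      rw [mul_one] at this
      exact this.congr fun p => by rw [div_mul_div_comm]) L
  refine ⟨fun p => .ofReal (h p), fun p => ofReal_le_ofReal (h1 p), ofReal_ne_top, ?_, fun p => ?_⟩
  · simpa using ENNReal.tendsto_ofReal h2
  · have := two_int a (A p) (B p) ⟨by linarith, a2⟩ ⟨(hA p).1.le, (hA p).2⟩ (hB p) p (p + 1)
      (p - 1) h h0
    unfold K up
    rw [this]
    have h4 := h3 p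
    have e : (if p ≤ L then (1 : ℝ≥0∞) else 0) = .ofReal (if p ≤ L then 1 else 0) := by
      split_ifs <;> simp
    have a0 := (hA p).1.le
    have a3 := sub_nonneg.mpr (hA p).2
    have b0 := (hB p).1
    have b3 := sub_nonneg.mpr (hB p).2
    have c0 := sub_nonneg.mpr a2
    have c1 : 0 ≤ a := by linarith
    have i1 := h0 p
    have i2 := h0 (p + 1)
    have i3 := h0 (p - 1)
    rw [e, ← ofReal_add (by positivity) (by positivity)]
    exact ofReal_le_ofReal (by linarith)

lemma sum_le (V x : ℕ → ℝ≥0∞) (h : ∀ t, V (t + 1) + x t ≤ V t) : ∑' t, x t ≤ V 0 := by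
  refine ENNReal.tsum_le_of_sum_range_le fun n => ?_
  have : ∀ n, V n + ∑ i ∈ Finset.range n, x i ≤ V 0 := by
    intro n
    induction n with
    | zero => simp
    | succ n ih =>
      rw [Finset.sum_range_succ, add_comm _ (x n), ← add_assoc]
      exact (add_le_add_left (h n) _).trans ih
  exact le_add_self.trans (this n)

theorem diverge (A B : ℕ → ℝ) (hA : ∀ p, 0 < A p ∧ A p ≤ 1) (hB : ∀ p, 0 ≤ B p ∧ B p ≤ 1)
    (hlim : Tendsto (fun p => B p / A p) atTop (𝓝 1)) :
    ∃ k : ℕ → ℕ, Monotone k ∧ Tendsto k atTop atTop ∧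
      ∀ᵐ ω ∂P, Tendsto (Y (fun t => up A B (k t)) ω) atTop atTop := by
  classical
  choose H H1 H2 H3 H4 using lyapK A B hA hB hlim
  let nx : ℕ × ((ℕ → ℝ≥0∞) → ℝ≥0∞) → ℕ := fun s =>
    if s.2 (H (s.1 + 1) (s.1 + 1)) ≤ 2⁻¹ ^ (s.1 + 1) then s.1 + 1 else s.1
  let S : ℕ → ℕ × ((ℕ → ℝ≥0∞) → ℝ≥0∞) := fun t =>
    Nat.rec (0, fun g => g 0) (fun _ s => (nx s, fun g => s.2 (K (up A B (nx s)) g))) t
  let k : ℕ → ℕ := fun t => (S t).1
  let sg : ℕ → ℕ → U → ℕ := fun t => up A B (k t)
  have hm : ∀ t p, Measurable (sg t p) := fun t p => two_meas _ _ _ _ _ _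
  have hE : ∀ t g, (S t).2 g = ∫⁻ ω, g (Y sg ω t) ∂P := by
    intro t
    induction t with
    | zero => intro g; simp [S, Y]
    | succ t ih => intro g; rw [markov sg hm, ← ih]
  have hk : ∀ t, k (t + 1) =
      if ∫⁻ ω, H (k t + 1) (k t + 1) (Y sg ω t) ∂P ≤ 2⁻¹ ^ (k t + 1) then k t + 1 else k t := by
    intro t
    rw [← hE]
  have hmono : Monotone k := monotone_nat_of_le_succ fun t => by rw [hk]; split_ifs <;> omega
  have hmeas : ∀ t (g : ℕ → ℝ≥0∞), Measurable fun ω => g (Y sg ω t) := fun t g =>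
    (Measurable.of_discrete (f := g)).comp (Y_meas sg hm t)
  have hset : ∀ t L, MeasurableSet {ω | Y sg ω t ≤ L} := fun t L =>
    measurableSet_le (Y_meas sg hm t) measurable_const
  have hind : ∀ t L (c : ℝ≥0∞), ∫⁻ ω, (if Y sg ω t ≤ L then c else 0) ∂P =
      c * P {ω | Y sg ω t ≤ L} := by
    intro t L c
    rw [← lintegral_indicator_const (hset t L)]
    refine lintegral_congr fun ω => ?_
    simp [Set.indicator]
  have key : ∀ t L, ∫⁻ ω, H (k (t + 1)) L (Y sg ω (t + 1)) ∂P + P {ω | Y sg ω t ≤ L} ≤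
      ∫⁻ ω, H (k (t + 1)) L (Y sg ω t) ∂P := by
    intro t L
    rw [markov sg hm, ← one_mul (P _), ← hind, ← lintegral_add_left (hmeas t _)]
    exact lintegral_mono fun ω => H4 _ _ _
  have hbd : ∀ t j L, ∫⁻ ω, H j L (Y sg ω t) ∂P ≤ H j L 0 := fun t j L =>
    (lintegral_mono fun ω => H1 j L _).trans (by simp)
  have hinf : Tendsto k atTop atTop := by
    rcases tendsto_atTop_of_monotone hmono with h | ⟨j, h⟩
    · exact h
    exfalso
    obtain ⟨t0, ht0⟩ : ∃ a, ∀ b, a ≤ b → k b = j := by simpa using h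
    have hz : ∀ L, Tendsto (fun t => P {ω | Y sg ω (t + t0) ≤ L}) atTop (𝓝 0) := by
      intro L
      refine ENNReal.tendsto_atTop_zero_of_tsum_ne_top (ne_top_of_le_ne_top (H2 j L) ?_)
      refine (sum_le (fun t => ∫⁻ ω, H j L (Y sg ω (t + t0)) ∂P) _ fun t => ?_).trans (hbd _ _ _)
      have := key (t + t0) L
      rw [ht0 (t + t0 + 1) (by omega)] at this
      rwa [show t + 1 + t0 = t + t0 + 1 by omega]
    have he : (0 : ℝ≥0∞) < 2⁻¹ ^ (j + 2) := ENNReal.pow_pos (by simp) _
    obtain ⟨L, hL⟩ := eventually_atTop.mp ((H3 (j + 1) (j + 1)).eventually_le_const he)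
    have h2 := ENNReal.Tendsto.const_mul (a := H (j + 1) (j + 1) 0) (hz L) (Or.inr (H2 _ _))
    rw [mul_zero] at h2
    obtain ⟨t, ht⟩ := (h2.eventually_le_const he).exists
    have h3 := hk (t + t0)
    rw [ht0 (t + t0 + 1) (by omega), ht0 (t + t0) (by omega), if_pos] at h3
    · omega
    calc _ ≤ ∫⁻ ω, ((if Y sg ω (t + t0) ≤ L then H (j + 1) (j + 1) 0 else 0) + 2⁻¹ ^ (j + 2)) ∂P := by
          refine lintegral_mono fun ω => ?_
          split_ifs with h
          · exact le_add_right (H1 _ _ _)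
          · rw [zero_add]; exact hL _ (by omega)
      _ ≤ 2⁻¹ ^ (j + 2) + 2⁻¹ ^ (j + 2) := by
          rw [lintegral_add_right _ measurable_const, hind]
          simpa using ht
      _ = _ := by rw [pow_succ _ (j + 1), ← mul_add, ENNReal.inv_two_add_inv_two, mul_one]
  refine ⟨k, hmono, hinf, ?_⟩
  have hs : ∑' t, P {ω | Y sg ω t ≤ k (t + 1)} ≠ ∞ := by
    refine ne_top_of_le_ne_top ?_ (sum_le
      (fun t => ∫⁻ ω, H (k t) (k t) (Y sg ω t) ∂P + 2⁻¹ ^ k t) _ fun t => ?_)
    · exact ENNReal.add_ne_top.mpr ⟨ne_top_of_le_ne_top (H2 _ _) (hbd _ _ _),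
        ENNReal.pow_ne_top (by simp)⟩
    · rw [add_right_comm]
      refine (add_le_add_left (key t _) _).trans ?_
      rw [hk]
      split_ifs with h
      · refine (add_le_add_left h _).trans (le_add_left (le_of_eq ?_))
        rw [pow_succ, ← mul_add, ENNReal.inv_two_add_inv_two, mul_one]
      · exact le_rfl
  filter_upwards [ae_eventually_notMem hs] with ω hω
  refine tendsto_atTop_mono' _ ?_ ((tendsto_add_atTop_iff_nat 1).mpr hinf)
  filter_upwards [hω] with t ht
  exact (not_le.mp ht).le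

end Pool.Agent.H.MP_1da119_pr
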